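import Pool.Agent.Y448.RZ.Loc
import Pool.Agent.Y667.QK.Stm

/-!
# Project QK: VN, KILL, NG
-/

set_option autoImplicit false

namespace Pool.Agent.Y448.QK

open Finset Pool.Agent.W262.RK Pool.Agent.W307.RT Pool.Agent.W307.RS Pool.Agent.W307.SE
  Pool.Agent.W307.FK Pool.Agent.W214.RK2 Pool.Agent.Y667.RP Pool.Agent.Y667.RZ
  Pool.Agent.Y667.QK Pool.Agent.Y448.RZ

lemma Vt_eq (f τ : ℕ) (s : Fin 3 → ℕ) (E : Finset ℕ) :
    Vt f τ s E = VG (τ * ∏ j, s j) (Lt f τ s E) := rfl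

lemma sg0_eight {q : ℕ} (h : q % 8 = 1) : sg0 q (-1) = false := by
  unfold sg0
  rw [decide_eq_false_iff_not]
  have ho : Odd q := Nat.odd_iff.2 (by omega)
  have : jacobiSym (-1) q = 1 := by
    rw [jacobiSym.at_neg_one ho, ZMod.χ₄_nat_one_mod_four (by omega)]
  rw [this]
  norm_num

lemma xct (c : Bool) : XC (fun v _ h g => h = false ∧ g = (v && c)) := by
  refine ⟨⟨rfl, by cases c <;> rfl⟩, ?_⟩
  rintro a b c' d a' b' c'' d' ⟨rfl, rfl⟩ ⟨rfl, rfl⟩
  refine ⟨rfl, ?_⟩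
  revert a a' c
  decide

lemma xcLt (f τ : ℕ) (s : Fin 3 → ℕ) (E : Finset ℕ) (q : ℕ) : XC (Lt f τ s E q) := by
  by_cases h : q ∣ τ
  · refine ⟨?_, ?_⟩
    · unfold Lt
      rw [if_pos h]
      exact (xct _).1
    · intro a b c d a' b' c' d' h1 h2
      unfold Lt at h1 h2 ⊢
      rw [if_pos h] at h1 h2 ⊢
      exact (xct _).2 a b c d a' b' c' d' h1 h2
  · refine ⟨?_, ?_⟩
    · unfold Lt
      rw [if_neg h]
      exact (xcLF s _ q).1
    · intro a b c d a' b' c' d' h1 h2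
      unfold Lt at h1 h2 ⊢
      rw [if_neg h] at h1 h2 ⊢
      exact (xcLF s _ q).2 a b c d a' b' c' d' h1 h2

lemma pft {τ m q : ℕ} (hq : q ∈ (τ * m).primeFactors) (h : ¬ q ∣ τ) : q ∈ m.primeFactors := by
  rw [Nat.mem_primeFactors] at hq ⊢
  obtain ⟨h1, h2, h3⟩ := hq
  refine ⟨h1, ?_, fun h0 => h3 (by rw [h0, mul_zero])⟩
  rcases (h1.dvd_mul).1 h2 with h4 | h4
  · exact absurd h4 h
  · exact h4

lemma isoLt {f τ : ℕ} {s : Fin 3 → ℕ} {E : Finset ℕ} {q : ℕ} (ha : AdT τ)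
    (hq : q ∈ (τ * ∏ j, s j).primeFactors) : Iso q (Lt f τ s E q) := by
  by_cases h : q ∣ τ
  · intro v w h' g v' w' h'' g' h1 h2
    unfold Lt at h1 h2
    rw [if_pos h] at h1 h2
    obtain ⟨rfl, rfl⟩ := h1
    obtain ⟨rfl, rfl⟩ := h2
    rw [sg0_eight (ha.m8 q (Nat.mem_primeFactors.2
      ⟨Nat.prime_of_mem_primeFactors hq, h, ha.sqf.ne_zero⟩))]
    generalize decide (q = f) = c
    revert v w v' w' c
    decide
  · intro v w h' g v' w' h'' g' h1 h2
    unfold Lt at h1 h2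
    rw [if_neg h] at h1 h2
    exact isoLF (pft hq h) _ _ _ _ _ _ _ _ h1 h2

section upd

variable {f τ : ℕ} {s : Fin 3 → ℕ} {j : Fin 3} {p : ℕ} {E E' : Finset ℕ}

lemma twt_iff (hs : (∏ j, s j) ≠ 0) (hp : p.Prime)
    (hE : E' ∩ (∏ j, s j).primeFactors = E ∩ (∏ j, s j).primeFactors) {q : ℕ}
    (hq : q ∈ (∏ j, s j).primeFactors) :
    q ∈ twt τ (∏ l, Function.update s j (s j * p) l) E' ↔ q ∈ twt τ (∏ j, s j) E := by
  unfold twt
  rw [mem_filter, mem_filter, upd_prod, mem_iff_of_inter hE hq]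
  constructor
  · rintro ⟨_, h⟩
    exact ⟨hq, h⟩
  · rintro ⟨_, h⟩
    refine ⟨?_, h⟩
    rw [Nat.mem_primeFactors] at hq ⊢
    exact ⟨hq.1, hq.2.1.mul_right _, mul_ne_zero hs hp.ne_zero⟩

lemma downt (hs : (∏ j, s j) ≠ 0) (hp : p.Prime)
    (hE : E' ∩ (∏ j, s j).primeFactors = E ∩ (∏ j, s j).primeFactors) :
    ∀ q ∈ (τ * ∏ j, s j).primeFactors, ∀ v w h g,
      Lt f τ (Function.update s j (s j * p)) E' q v w h g → Lt f τ s E q v w h g := by
  intro q hq v w h g hL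
  unfold Lt at hL ⊢
  split_ifs at hL ⊢ with hqt
  · exact hL
  · exact LF_congr (twt_iff hs hp hE (pft hq hqt)) (LF_down hL)

lemma newt (hpt : ¬ p ∣ τ) : ∀ v w h g, Lt f τ (Function.update s j (s j * p)) E' p v w h g →
    LR j (decide (p ∈ twt τ (∏ l, Function.update s j (s j * p) l) E')) v w h g := by
  intro v w h g hL
  unfold Lt at hL
  rw [if_neg hpt] at hL
  exact LF_new hL

lemma Vt_upd : Vt f τ (Function.update s j (s j * p)) E' =
    VG ((τ * ∏ j, s j) * p) (Lt f τ (Function.update s j (s j * p)) E') := by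
  rw [Vt_eq, upd_prod, mul_assoc]

end upd

lemma odd_AdT {τ : ℕ} (ha : AdT τ) : Odd τ := by
  by_contra h
  rw [Nat.not_odd_iff_even, even_iff_two_dvd] at h
  have := ha.m8 2 (Nat.mem_primeFactors.2 ⟨Nat.prime_two, h, ha.sqf.ne_zero⟩)
  omega

/-- the type of a class -/
noncomputable def tyt (τ : ℕ) (d : ℤ × ℤ) :
    (Bool × Bool) × ({q : ℕ // q ∈ τ.primeFactors} → Bool × Bool) :=
  ((decide (0 < d.2), dv 2 d.2), fun q => (dv q.1 d.1, dv q.1 d.2))

lemma tyt_sp {τ M : ℕ} {L : Pool.Agent.Y448.RZ.LC} {d d' : ℤ × ℤ} (hd : d ∈ VG M L) (hd' : d' ∈ VG M L)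
    (h : tyt τ d = tyt τ d') : 0 < sp d.2 d'.2 ∧ ¬ (2 : ℤ) ∣ sp d.2 d'.2 ∧
      ∀ q ∈ τ.primeFactors, ¬ (q : ℤ) ∣ sp d.1 d'.1 ∧ ¬ (q : ℤ) ∣ sp d.2 d'.2 := by
  obtain ⟨h1, h2, h3, h4, h5, h6, h7⟩ := hd
  obtain ⟨k1, k2, k3, k4, k5, k6, k7⟩ := hd'
  unfold tyt at h
  simp only [Prod.mk.injEq, decide_eq_decide] at h
  obtain ⟨⟨e1, e2⟩, e3⟩ := h
  refine ⟨?_, ?_, fun q hq => ?_⟩
  · obtain ⟨g, a', b', hg, f1, f2, f3, f4⟩ := sp_dec d.2 d'.2 h2
    rw [f4]
    have ha0 : a' ≠ 0 := by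
      rintro rfl
      rw [mul_zero] at f1
      exact h2.ne_zero f1
    have hb0 : b' ≠ 0 := by
      rintro rfl
      rw [mul_zero] at f2
      exact k2.ne_zero f2
    rw [f1, f2, mul_pos_iff_of_pos_left hg, mul_pos_iff_of_pos_left hg] at e1
    rcases lt_or_gt_of_ne ha0 with h | h
    · have : b' < 0 := by
        rcases lt_or_gt_of_ne hb0 with h' | h'
        · exact h'
        · have := e1.2 h'; omega
      exact mul_pos_of_neg_of_neg h this
    · exact mul_pos h (e1.1 h)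
  · have := (sp_dv h2 k2 2 Nat.prime_two).1
    rw [e2, Bool.xor_self] at this
    unfold dv at this
    rw [decide_eq_false_iff_not] at this
    exact_mod_cast this
  · have e4 := congrFun e3 ⟨q, hq⟩
    simp only [Prod.mk.injEq] at e4
    have hqp := Nat.prime_of_mem_primeFactors hq
    refine ⟨?_, ?_⟩
    · have := (sp_dv h1 k1 q hqp).1
      rw [e4.1, Bool.xor_self] at this
      unfold dv at this
      rwa [decide_eq_false_iff_not] at this
    · have := (sp_dv h2 k2 q hqp).1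
      rw [e4.2, Bool.xor_self] at this
      unfold dv at this
      rwa [decide_eq_false_iff_not] at this

theorem VN : Pool.Agent.Y667.QK.St_VN := by
  classical
  intro f τ s E ha hs hodd hcop
  have hτ0 : τ ≠ 0 := ha.sqf.ne_zero
  set m := ∏ j, s j with hm
  set F : Finset (ℕ × ℕ) := (m.divisors ×ˢ m.divisors).filter (fun d : ℕ × ℕ =>
    ∀ p ∈ m.primeFactors, LF s (twt τ m E) p (dv p d.1) (dv p d.2) (sgn p d.1) (sgn p d.2)) with hF
  have hFcard : F.card = NL m (LF s (twt τ m E)) := by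
    unfold NL
    rw [hF]
  have hX : ∀ q ∈ (τ * ∏ j, s j).primeFactors, XC (Lt f τ s E q) := fun q _ => xcLt f τ s E q
  have hel : ∀ q : ℕ, q.Prime → ¬ q ∣ τ → q ∣ τ * m → q ∣ m := by
    intro q hq h1 h2
    rcases (hq.dvd_mul).1 h2 with h3 | h3
    · exact absurd h3 h1
    · exact h3
  have hFmem : ∀ d d' : ℤ × ℤ, d ∈ Vt f τ s E → d' ∈ Vt f τ s E → tyt τ d = tyt τ d' →
      ((sp d.1 d'.1).natAbs, (sp d.2 d'.2).natAbs) ∈ F := by
    intro d d' hd hd' ho
    obtain ⟨t1, t2, t3⟩ := tyt_sp hd hd' ho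
    obtain ⟨g1, g2, g3, g4, g5, g6, g7⟩ := VG_mul hX hd hd'
    rw [hF, mem_filter, mem_product, Nat.mem_divisors, Nat.mem_divisors]
    simp only [sp2] at g1 g2 g3 g4 g5 g6 g7
    refine ⟨⟨⟨natAbs_dvd g1 ?_, hs.ne_zero⟩, ⟨natAbs_dvd g2 ?_, hs.ne_zero⟩⟩, ?_⟩
    · intro q hq hqd
      refine hel q hq ?_ (g5 q hq hqd)
      intro hqt
      exact (t3 q (Nat.mem_primeFactors.2 ⟨hq, hqt, hτ0⟩)).1 hqd
    · intro q hq hqd
      have h1 := g6 q hq hqd
      refine hel q hq ?_ ?_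
      · intro hqt
        exact (t3 q (Nat.mem_primeFactors.2 ⟨hq, hqt, hτ0⟩)).2 hqd
      · refine two_dvd_elim hq ?_ h1
        rintro rfl
        exact t2 (by exact_mod_cast hqd)
    · intro p hp
      have e1 : (((sp d.1 d'.1).natAbs : ℕ) : ℤ) = sp d.1 d'.1 := by omega
      have e2 : (((sp d.2 d'.2).natAbs : ℕ) : ℤ) = sp d.2 d'.2 := by omega
      simp only [e1, e2]
      have hp' : p ∈ (τ * m).primeFactors := by
        rw [Nat.mem_primeFactors] at hp ⊢
        exact ⟨hp.1, hp.2.1.mul_left _, mul_ne_zero hτ0 hp.2.2⟩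
      have h1 := g7 p hp'
      unfold Lt at h1
      rw [if_neg] at h1
      · exact h1
      · intro hpt
        have hpp := Nat.prime_of_mem_primeFactors hp
        exact hpp.one_lt.ne' (Nat.eq_one_of_dvd_coprimes hcop hpt
          (Nat.dvd_of_mem_primeFactors hp))
  have : Nonempty (Vt f τ s E) := ⟨⟨(1, 1), VG_one hX⟩⟩
  obtain ⟨rep, hrep⟩ : ∃ rep : (Bool × Bool) × ({q : ℕ // q ∈ τ.primeFactors} → Bool × Bool) →
      Vt f τ s E, ∀ d : Vt f τ s E, tyt τ (rep (tyt τ d.1)).1 = tyt τ d.1 :=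
    ⟨Function.invFun (fun d : Vt f τ s E => tyt τ d.1), fun d =>
      Function.invFun_eq (f := fun d : Vt f τ s E => tyt τ d.1) ⟨d, rfl⟩⟩
  obtain ⟨kk, hkk⟩ : ∃ kk : Vt f τ s E →
      ((Bool × Bool) × ({q : ℕ // q ∈ τ.primeFactors} → Bool × Bool)) × (ℕ × ℕ),
      ∀ d : Vt f τ s E, kk d = (tyt τ d.1, ((sp (rep (tyt τ d.1)).1.1 d.1.1).natAbs,
        (sp (rep (tyt τ d.1)).1.2 d.1.2).natAbs)) := ⟨_, fun d => rfl⟩
  have hmem : ∀ d : Vt f τ s E, kk d ∈
      (univ : Finset ((Bool × Bool) × ({q : ℕ // q ∈ τ.primeFactors} → Bool × Bool))) ×ˢ F := by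
    intro d
    rw [hkk, mem_product]
    exact ⟨mem_univ _, hFmem _ _ (rep _).2 d.2 (hrep d)⟩
  have hinj : Function.Injective kk := by
    intro d e hde
    rw [hkk, hkk] at hde
    have h1 : tyt τ d.1 = tyt τ e.1 := congrArg Prod.fst hde
    have h2 := congrArg (fun z => z.2.1) hde
    have h3 := congrArg (fun z => z.2.2) hde
    simp only at h2 h3
    rw [← h1] at h2 h3
    have hr := (rep (tyt τ d.1)).2
    obtain ⟨a1, -⟩ := tyt_sp hr d.2 (hrep d)
    obtain ⟨b1, -⟩ := tyt_sp hr e.2 ((hrep d).trans h1)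
    have p1 := sp_pos hr.1 hr.2.2.1 d.2.2.2.1
    have p2 := sp_pos hr.1 hr.2.2.1 e.2.2.2.1
    have c1 : sp (rep (tyt τ d.1)).1.1 d.1.1 = sp (rep (tyt τ d.1)).1.1 e.1.1 := by omega
    have c2 : sp (rep (tyt τ d.1)).1.2 d.1.2 = sp (rep (tyt τ d.1)).1.2 e.1.2 := by omega
    apply Subtype.ext
    apply Prod.ext
    · exact sp_inj hr.1 d.2.1 e.2.1 c1
    · exact sp_inj hr.2.1 d.2.2.1 e.2.2.1 c2
  have hfin : Finite (Vt f τ s E) := by
    exact Finite.of_injective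
      (fun d : Vt f τ s E => (⟨kk d, hmem d⟩ :
        {z // z ∈ (univ : Finset ((Bool × Bool) × ({q : ℕ // q ∈ τ.primeFactors} →
          Bool × Bool))) ×ˢ F}))
      (fun d e hde => hinj (congrArg Subtype.val hde))
  refine ⟨Set.toFinite _, ?_⟩
  have hcard : (Vt f τ s E).ncard ≤
      ((univ : Finset ((Bool × Bool) × ({q : ℕ // q ∈ τ.primeFactors} → Bool × Bool))) ×ˢ
        F).card := by
    rw [← Nat.card_coe_set_eq]
    have := Fintype.ofFinite (Vt f τ s E)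
    rw [Nat.card_eq_fintype_card, ← card_univ]
    exact card_le_card_of_injOn kk (fun d _ => hmem d) hinj.injOn
  refine hcard.trans ?_
  rw [card_product, hFcard]
  refine Nat.mul_le_mul_right _ (le_of_eq ?_)
  rw [card_univ, Fintype.card_prod, Fintype.card_fun, Fintype.card_prod, Fintype.card_bool,
    Fintype.card_coe, pow_succ]
  ring

theorem KILL : Pool.Agent.Y667.QK.St_KILL := by
  intro f τ s E E' w p j ha hs hodd hcop hw hp hp2 hpt hps hE hphi
  have hM : τ * ∏ j, s j ≠ 0 := mul_ne_zero ha.sqf.ne_zero hs.ne_zero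
  have ho : Odd (τ * ∏ j, s j) := Odd.mul (odd_AdT ha) hodd
  have hpM : ¬ p ∣ τ * ∏ j, s j := by
    intro h
    rcases (hp.dvd_mul).1 h with h | h
    · exact hpt h
    · exact hps h
  rw [Vt_upd]
  exact KILLG hM ho hp hp2 hpM (fun q _ => xcLt f τ s E q) (fun q hq => isoLt ha hq)
    (downt hs.ne_zero hp hE) (newt hpt) hw hphi (VN f τ s E ha hs hodd hcop).1

theorem NG : Pool.Agent.Y667.QK.St_NG := by
  classical
  intro f τ s E p j ha hs hodd hcop hEs hp hp2 hpt hps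
  have hM : τ * ∏ j, s j ≠ 0 := mul_ne_zero ha.sqf.ne_zero hs.ne_zero
  have ho : Odd (τ * ∏ j, s j) := Odd.mul (odd_AdT ha) hodd
  have hpM : ¬ p ∣ τ * ∏ j, s j := by
    intro h
    rcases (hp.dvd_mul).1 h with h | h
    · exact hpt h
    · exact hps h
  have hpE : p ∉ E := fun h => hps (Nat.dvd_of_mem_primeFactors (hEs h))
  have hE1 : E ∩ (∏ j, s j).primeFactors = E ∩ (∏ j, s j).primeFactors := rfl
  have hE2 : insert p E ∩ (∏ j, s j).primeFactors = E ∩ (∏ j, s j).primeFactors := by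
    rw [insert_inter_of_notMem]
    exact fun h => hps (Nat.dvd_of_mem_primeFactors h)
  have hpm' : p ∈ (∏ l, Function.update s j (s j * p) l).primeFactors := by
    rw [upd_prod, Nat.mem_primeFactors]
    exact ⟨hp, dvd_mul_left _ _, mul_ne_zero hs.ne_zero hp.ne_zero⟩
  have t1 : p ∈ twt τ (∏ l, Function.update s j (s j * p) l) E ↔ jacobiSym τ p = -1 := by
    unfold twt
    rw [mem_filter]
    simp only [hpm', hpE, true_and, false_iff, not_not]
  have t2 : p ∈ twt τ (∏ l, Function.update s j (s j * p) l) (insert p E) ↔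
      ¬ jacobiSym τ p = -1 := by
    unfold twt
    rw [mem_filter]
    simp only [hpm', mem_insert_self, true_and, true_iff]
  refine ⟨?_, ?_⟩
  · rw [Vt_upd, Vt_upd]
    refine NG1 hM ho hp hp2 hpM (fun q hq => isoLt ha hq) (downt hs.ne_zero hp hE1)
      (downt hs.ne_zero hp hE2) (j := j) (neg := decide (jacobiSym τ p = -1)) ?_ ?_
    · intro v w h g hL
      have := newt hpt v w h g hL
      have e : decide (p ∈ twt τ (∏ l, Function.update s j (s j * p) l) E) =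
        decide (jacobiSym τ p = -1) := decide_eq_decide.2 t1
      rwa [e] at this
    · intro v w h g hL
      have := newt hpt v w h g hL
      have e : decide (p ∈ twt τ (∏ l, Function.update s j (s j * p) l) (insert p E)) =
        !decide (jacobiSym τ p = -1) := by
        rw [← decide_not]
        exact decide_eq_decide.2 t2
      rwa [e] at this
  · intro E' hE'
    have hE3 : E' ∩ (∏ j, s j).primeFactors = E ∩ (∏ j, s j).primeFactors := by
      rcases hE' with rfl | rfl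
      · rfl
      · exact hE2
    rw [Vt_upd]
    exact NG2 hM hp hp2 (fun q _ => xcLt f τ s E q) (downt hs.ne_zero hp hE3) (newt hpt)
      (VN f τ s E ha hs hodd hcop).1

end Pool.Agent.Y448.QK
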